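import Pool.Agent.Helper78.BigMap.Goals

set_option autoImplicit false

open Topology Filter Set Metric

namespace Pool.Agent.Helper96.Big

open Pool.Agent.Helper78.BigMap

/-- A homotopy of self maps moving the base point along `δ` acts by conjugation. -/
theorem conj_of_homotopy {X : Type*} [TopologicalSpace X] (f g : C(X, X)) (x : X)
    (hf : f x = x) (hg : g x = x) (F : f.Homotopy g) (δ : Path x x)
    (hδ : ∀ t, F (t, x) = δ t) (γ : FundamentalGroup X x) :
    FundamentalGroup.mapOfEq g hg γ =
      FundamentalGroup.fromPath (Path.Homotopic.Quotient.mk δ) *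
        FundamentalGroup.mapOfEq f hf γ *
          (FundamentalGroup.fromPath (Path.Homotopic.Quotient.mk δ))⁻¹ := by
  rw [eq_mul_inv_iff_mul_eq, FundamentalGroup.mul_def, FundamentalGroup.mul_def,
    FundamentalGroup.mapOfEq_apply, FundamentalGroup.mapOfEq_apply]
  induction γ using Path.Homotopic.Quotient.ind with
  | mk p =>
    have key := (Path.Homotopic.map_trans_evalAt F p).pathCast hf.symm hg.symm
    have e1 : ((p.map (map_continuous f)).trans (F.evalAt x)).cast hf.symm hg.symm =
        ((p.map (map_continuous f)).cast hf.symm hf.symm).trans δ := by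
      ext t
      simp only [Path.trans_apply, Path.cast_coe, Path.map_coe, Function.comp]
      split_ifs
      · rfl
      · exact hδ _
    have e2 : ((F.evalAt x).trans (p.map (map_continuous g))).cast hf.symm hg.symm =
        δ.trans ((p.map (map_continuous g)).cast hg.symm hg.symm) := by
      ext t
      simp only [Path.trans_apply, Path.cast_coe, Path.map_coe, Function.comp]
      split_ifs
      · exact hδ _
      · rfl
    rw [e1, e2] at key
    exact (Path.Homotopic.Quotient.eq.2 key).symm

/-- Homotopies in the plane minus two points. -/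
theorem conj_of_plane {a b c : ℝ} (h : a < c ∧ c < b) (f g : C(X a b, X a b))
    (hf : f (bp h) = bp h) (hg : g (bp h) = bp h)
    (H : unitInterval × X a b → ℂ) (hH : Continuous H)
    (hav : ∀ p, H p ≠ a ∧ H p ≠ b) (h0 : ∀ z, H (0, z) = f z) (h1 : ∀ z, H (1, z) = g z)
    (δ : Path (bp h) (bp h)) (hδ : ∀ t, H (t, bp h) = δ t) (γ : Pi1 h) :
    FundamentalGroup.mapOfEq g hg γ =
      FundamentalGroup.fromPath (Path.Homotopic.Quotient.mk δ) *
        FundamentalGroup.mapOfEq f hf γ *
          (FundamentalGroup.fromPath (Path.Homotopic.Quotient.mk δ))⁻¹ := by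
  let F : f.Homotopy g :=
    { toFun := fun p => ⟨H p, hav p⟩
      continuous_toFun := hH.subtype_mk _
      map_zero_left := fun z => Subtype.ext (h0 z)
      map_one_left := fun z => Subtype.ext (h1 z) }
  exact conj_of_homotopy f g (bp h) hf hg F δ (fun t => Subtype.ext (hδ t)) γ

theorem eq_of_plane {a b c : ℝ} (h : a < c ∧ c < b) (f g : C(X a b, X a b))
    (hf : f (bp h) = bp h) (hg : g (bp h) = bp h)
    (H : unitInterval × X a b → ℂ) (hH : Continuous H)
    (hav : ∀ p, H p ≠ a ∧ H p ≠ b) (h0 : ∀ z, H (0, z) = f z) (h1 : ∀ z, H (1, z) = g z)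
    (hδ : ∀ t, H (t, bp h) = c) (γ : Pi1 h) :
    FundamentalGroup.mapOfEq g hg γ = FundamentalGroup.mapOfEq f hf γ := by
  have := conj_of_plane h f g hf hg H hH hav h0 h1 (Path.refl _) hδ γ
  rw [this]
  have e : FundamentalGroup.fromPath (Path.Homotopic.Quotient.mk (Path.refl (bp h))) = 1 := rfl
  rw [e, one_mul, inv_one, mul_one]

theorem mapOfEq_id {X : Type*} [TopologicalSpace X] (x : X) (hx : ContinuousMap.id X x = x)
    (γ : FundamentalGroup X x) :
    FundamentalGroup.mapOfEq (ContinuousMap.id X) hx γ = γ := by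
  rw [FundamentalGroup.mapOfEq_apply]
  induction γ using Path.Homotopic.Quotient.ind with
  | mk p => rfl

/-! ### the radial retraction -/

theorem rad_eq {e : ℂ} {R : ℝ} (hR : 0 < R) (z : ℂ) :
    rad e R z = e + ((R / max R ‖z - e‖ : ℝ) : ℂ) * (z - e) := by
  unfold rad
  rcases le_or_gt ‖z - e‖ R with h | h
  · rw [max_eq_left h, div_self hR.ne']
    rcases eq_or_lt_of_le (norm_nonneg (z - e)) with h0 | h0
    · have : z - e = 0 := norm_eq_zero.1 h0.symm
      simp [this]
    · rw [min_eq_left ((one_le_div h0).2 h)]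
  · rw [max_eq_right h.le, min_eq_right ((div_le_one (hR.trans h)).2 h.le)]

theorem continuous_rad {e : ℂ} {R : ℝ} (hR : 0 < R) : Continuous (rad e R) := by
  have : rad e R = fun z => e + ((R / max R ‖z - e‖ : ℝ) : ℂ) * (z - e) := by
    funext z
    exact rad_eq hR z
  rw [this]
  have hne : ∀ z : ℂ, max R ‖z - e‖ ≠ 0 := fun z => (lt_of_lt_of_le hR (le_max_left _ _)).ne'
  refine continuous_const.add (Continuous.mul (Complex.continuous_ofReal.comp ?_) (by fun_prop))
  exact continuous_const.div (by fun_prop) hne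

theorem rad_of_le {e : ℂ} {R : ℝ} (hR : 0 < R) {z : ℂ} (h : ‖z - e‖ ≤ R) : rad e R z = z := by
  rw [rad_eq hR, max_eq_left h, div_self hR.ne']
  simp

theorem norm_rad_of_ge {e : ℂ} {R : ℝ} (hR : 0 < R) {z : ℂ} (h : R ≤ ‖z - e‖) :
    ‖rad e R z - e‖ = R := by
  have h0 : 0 < ‖z - e‖ := hR.trans_le h
  rw [rad_eq hR, max_eq_right h, add_sub_cancel_left, norm_mul, Complex.norm_real,
    Real.norm_of_nonneg (by positivity), div_mul_cancel₀ _ h0.ne']

theorem rad_mem {e : ℂ} {R : ℝ} (hR : 0 < R) (z : ℂ) : rad e R z ∈ closedBall e R := by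
  rw [mem_closedBall, dist_eq_norm]
  rcases le_or_gt ‖z - e‖ R with h | h
  · rw [rad_of_le hR h]; exact h
  · exact (norm_rad_of_ge hR h.le).le

theorem rad_ne {e : ℂ} {R : ℝ} (hR : 0 < R) {z p : ℂ} (hp : p ∈ ball e R) (hz : z ≠ p) :
    rad e R z ≠ p := by
  intro hc
  rw [mem_ball, dist_eq_norm] at hp
  rcases le_or_gt ‖z - e‖ R with h | h
  · rw [rad_of_le hR h] at hc
    exact hz hc
  · have := norm_rad_of_ge hR h.le
    rw [hc] at this
    linarith

/-! ### the fractional twist -/

/-- the cut off function -/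
noncomputable def co (p : ℂ) (r r' : ℝ) (z : ℂ) : ℝ := max 0 (min 1 ((r' - ‖z - p‖) / (r' - r)))

/-- twist by the fraction `s` -/
noncomputable def tws (s : ℝ) (p : ℂ) (r r' : ℝ) (z : ℂ) : ℂ :=
  p + Complex.exp (2 * Real.pi * Complex.I * (s * co p r r' z : ℝ)) * (z - p)

theorem tws_one (p : ℂ) (r r' : ℝ) (z : ℂ) : tws 1 p r r' z = tw p r r' z := by
  unfold tws tw co
  rw [one_mul]

theorem tws_zero (p : ℂ) (r r' : ℝ) (z : ℂ) : tws 0 p r r' z = z := by
  unfold tws
  simp

theorem continuous_co (p : ℂ) (r r' : ℝ) : Continuous (co p r r') := by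
  unfold co
  fun_prop

theorem continuous_tws (p : ℂ) (r r' : ℝ) :
    Continuous (fun q : ℝ × ℂ => tws q.1 p r r' q.2) := by
  unfold tws
  have := (continuous_co p r r').comp (continuous_snd (X := ℝ) (Y := ℂ))
  simp only [Function.comp_def] at this
  fun_prop

theorem norm_tws (s : ℝ) (p : ℂ) (r r' : ℝ) (z : ℂ) : ‖tws s p r r' z - p‖ = ‖z - p‖ := by
  unfold tws
  rw [add_sub_cancel_left, norm_mul]
  have : (2 * Real.pi * Complex.I * ((s * co p r r' z : ℝ) : ℂ)) =
      ((2 * Real.pi * (s * co p r r' z) : ℝ) : ℂ) * Complex.I := by push_cast; ring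
  rw [this, Complex.norm_exp_ofReal_mul_I, one_mul]

theorem tws_of_ge (s : ℝ) {p : ℂ} {r r' : ℝ} (hr : r < r') {z : ℂ} (h : r' ≤ ‖z - p‖) :
    tws s p r r' z = z := by
  have : co p r r' z = 0 := by
    unfold co
    apply max_eq_left
    refine (min_le_right _ _).trans ?_
    exact div_nonpos_of_nonpos_of_nonneg (by linarith) (by linarith)
  unfold tws
  rw [this]
  simp

theorem tws_of_le (s : ℝ) {p : ℂ} {r r' : ℝ} (hr : r < r') {z : ℂ} (h : ‖z - p‖ ≤ r) :
    tws s p r r' z = p + Complex.exp (2 * Real.pi * Complex.I * (s : ℝ)) * (z - p) := by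
  have : co p r r' z = 1 := by
    unfold co
    rw [min_eq_left, max_eq_right zero_le_one]
    rw [one_le_div (by linarith)]
    linarith
  unfold tws
  rw [this, mul_one]

/-- The main statement, for a twist about `p ∈ {a, b}`. -/
theorem main {a b c : ℝ} (h : a < c ∧ c < b) (p q : ℝ) (hpq : (p = a ∧ q = b) ∨ (p = b ∧ q = a))
    (e : ℂ) (R R' r r' : ℝ) (T : ℂ → ℂ) (hpos : Pos a b c e R)
    (hR' : 0 < R') (hRR : R' < R) (hT : Continuous T) (hcr : |c - p| < r) (hrr : r < r')
    (hrb : r' < b - a)
    (han : ∀ z : ℂ, r ≤ ‖z - p‖ → ‖z - p‖ ≤ r' → R' < ‖z - e‖ ∧ ‖z - e‖ < R)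
    (ha : (a : ℂ) ∉ closedBall e R') (hb : (b : ℂ) ∉ closedBall e R')
    (hc : (c : ℂ) ∉ closedBall e R')
    (hTm : ∀ z ∈ closedBall e R', T z ∈ closedBall e R')
    (hTt : ∀ z ∈ closedBall e R, R' ≤ ‖z - e‖ → T z = tw p r r' z)
    (δ : Path (bp h) (bp h))
    (hδ : ∀ t : unitInterval, (δ t : ℂ) =
      p + Complex.exp (2 * Real.pi * Complex.I * (t : ℝ)) * ((c : ℂ) - p))
    (φ : C(X a b, X a b)) (hφ : φ (bp h) = bp h) (hself : IsSelf e R T φ) (γ : Pi1 h) :
    FundamentalGroup.mapOfEq φ hφ γ =
      FundamentalGroup.fromPath (Path.Homotopic.Quotient.mk δ) * γ *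
        (FundamentalGroup.fromPath (Path.Homotopic.Quotient.mk δ))⁻¹ := by
  obtain ⟨hpa, hpb, hpc⟩ := hpos
  have hR : 0 < R := hR'.trans hRR
  have hbp : ((bp h : X a b) : ℂ) = c := rfl
  have hradc : rad e R (c : ℂ) = c := by
    rw [mem_ball, dist_eq_norm] at hpc
    exact rad_of_le hR hpc.le
  -- p is in the ball, distances
  have hpball : (p : ℂ) ∈ ball e R := by
    rcases hpq with ⟨h1, h2⟩ | ⟨h1, h2⟩ <;> rw [h1] <;> assumption
  have hqball : (q : ℂ) ∈ ball e R := by
    rcases hpq with ⟨h1, h2⟩ | ⟨h1, h2⟩ <;> rw [h2] <;> assumption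
  have hqp : ‖(q : ℂ) - p‖ = b - a := by
    rw [← Complex.ofReal_sub, Complex.norm_real, Real.norm_eq_abs]
    rcases hpq with ⟨h1, h2⟩ | ⟨h1, h2⟩ <;> rw [h1, h2]
    · exact abs_of_pos (by linarith [h.1, h.2])
    · rw [abs_of_neg (by linarith [h.1, h.2])]; ring
  have hab : ∀ w : ℂ, (w ≠ p ∧ w ≠ q) ↔ (w ≠ a ∧ w ≠ b) := by
    intro w
    rcases hpq with ⟨h1, h2⟩ | ⟨h1, h2⟩ <;> rw [h1, h2]
    tauto
  have hcp : ‖(c : ℂ) - p‖ < r := by
    rw [← Complex.ofReal_sub, Complex.norm_real, Real.norm_eq_abs]
    exact hcr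
  -- the twist of a point different from p, q is different from p, q
  have htws : ∀ (s : ℝ) (w : ℂ), (w ≠ p ∧ w ≠ q) → (tws s p r r' w ≠ p ∧ tws s p r r' w ≠ q) := by
    intro s w ⟨hw1, hw2⟩
    constructor
    · intro hcon
      have := norm_tws s p r r' w
      rw [hcon, sub_self, norm_zero] at this
      exact hw1 (sub_eq_zero.1 (norm_eq_zero.1 this.symm))
    · intro hcon
      have h1 := norm_tws s p r r' w
      rw [hcon, hqp] at h1
      have h2 := tws_of_ge s (p := (p : ℂ)) hrr (z := w) (by rw [← h1]; exact hrb.le)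
      rw [h2] at hcon
      exact hw2 hcon
  have hradX : ∀ z : X a b, rad e R z ≠ p ∧ rad e R z ≠ q := by
    intro z
    have := (hab z).2 z.2
    exact ⟨rad_ne hR hpball this.1, rad_ne hR hqball this.2⟩
  -- self maps
  have hcr0 := continuous_rad (e := e) hR
  let fr : C(X a b, X a b) :=
    ⟨fun z => ⟨rad e R z, (hab _).1 (hradX z)⟩, by
      refine Continuous.subtype_mk ?_ _
      exact hcr0.comp continuous_subtype_val⟩
  have hfr : ∀ z : X a b, (fr z : ℂ) = rad e R z := fun z => rfl
  let ft : C(X a b, X a b) :=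
    ⟨fun z => ⟨tws 1 p r r' (rad e R z), (hab _).1 (htws 1 _ (hradX z))⟩, by
      refine Continuous.subtype_mk ?_ _
      have := (continuous_tws p r r').comp
        (Continuous.prodMk (continuous_const (y := (1 : ℝ))) (hcr0.comp
          (continuous_subtype_val (p := fun z : ℂ => z ≠ a ∧ z ≠ b))))
      exact this⟩
  have hft : ∀ z : X a b, (ft z : ℂ) = tws 1 p r r' (rad e R z) := fun z => rfl
  have hfrb : fr (bp h) = bp h := Subtype.ext (by rw [hfr, hbp, hradc])
  have htwc : tws 1 p r r' (c : ℂ) = c := by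
    rw [tws_of_le 1 hrr hcp.le]
    have : (2 * Real.pi * Complex.I * ((1 : ℝ) : ℂ)) = 2 * Real.pi * Complex.I := by
      push_cast; ring
    rw [this, Complex.exp_two_pi_mul_I]
    ring
  have hftb : ft (bp h) = bp h := Subtype.ext (by rw [hft, hbp, hradc, htwc])
  -- step A : id to fr
  have stepA : FundamentalGroup.mapOfEq fr hfrb γ = γ := by
    have := eq_of_plane h (ContinuousMap.id _) fr rfl hfrb
      (fun t => (1 - ((t.1 : ℝ) : ℂ)) * (t.2 : ℂ) + ((t.1 : ℝ) : ℂ) * rad e R t.2)
      (by
        have h1 : Continuous fun t : unitInterval × X a b => rad e R (t.2 : ℂ) :=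
          hcr0.comp (continuous_subtype_val.comp continuous_snd)
        fun_prop)
      (by
        rintro ⟨t, z⟩
        rw [← hab]
        simp only
        rcases le_or_gt ‖(z : ℂ) - e‖ R with hz | hz
        · rw [rad_of_le hR hz]
          have : (1 - ((t : ℝ) : ℂ)) * (z : ℂ) + ((t : ℝ) : ℂ) * z = z := by ring
          rw [this]
          exact (hab _).2 z.2
        · have hz0 : 0 < ‖(z : ℂ) - e‖ := hR.trans hz
          have e1 : (1 - ((t : ℝ) : ℂ)) * (z : ℂ) + ((t : ℝ) : ℂ) * rad e R z - e =
              (((1 - (t : ℝ)) + (t : ℝ) * (R / ‖(z : ℂ) - e‖) : ℝ) : ℂ) * (z - e) := by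
            rw [rad_eq hR, max_eq_right hz.le]
            push_cast
            ring
          have e2 : R ≤ ‖(1 - ((t : ℝ) : ℂ)) * (z : ℂ) + ((t : ℝ) : ℂ) * rad e R z - e‖ := by
            have ht0 := t.2.1
            have ht1 := t.2.2
            rw [e1, norm_mul, Complex.norm_real, Real.norm_of_nonneg
              (by have := div_nonneg hR.le hz0.le; nlinarith), add_mul, mul_assoc,
              div_mul_cancel₀ _ hz0.ne']
            nlinarith
          constructor
          · intro hcon
            rw [hcon] at e2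
            rw [mem_ball, dist_eq_norm] at hpball
            linarith
          · intro hcon
            rw [hcon] at e2
            rw [mem_ball, dist_eq_norm] at hqball
            linarith)
      (by intro z; simp)
      (by intro z; simp [hfr])
      (by
        intro t
        simp only [hbp, hradc]
        ring) γ
    rw [this]
    exact mapOfEq_id _ _ _
  -- step B : fr to ft
  have stepB := conj_of_plane h fr ft hfrb hftb
      (fun t => tws t.1 p r r' (rad e R t.2))
      (by
        have h1 : Continuous fun t : unitInterval × X a b => rad e R (t.2 : ℂ) :=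
          hcr0.comp (continuous_subtype_val.comp continuous_snd)
        have h2 : Continuous fun t : unitInterval × X a b => ((t.1 : ℝ), rad e R (t.2 : ℂ)) :=
          (continuous_subtype_val.comp continuous_fst).prodMk h1
        exact (continuous_tws p r r').comp h2)
      (by
        rintro ⟨t, z⟩
        rw [← hab]
        exact htws _ _ (hradX z))
      (by
        intro z
        simp only [hfr]
        exact tws_zero _ _ _ _)
      (by
        intro z
        simp only [hft]
        rfl)
      δ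
      (by
        intro t
        simp only [hbp, hradc]
        rw [tws_of_le _ hrr hcp.le, hδ])
      γ
  rw [stepA] at stepB
  rw [← stepB]
  -- step C : ft to φ
  exact eq_of_plane h ft φ hftb hφ
      (fun t => (1 - ((t.1 : ℝ) : ℂ)) * tws 1 p r r' (rad e R t.2) +
        ((t.1 : ℝ) : ℂ) * T (rad e R t.2))
      (by
        have h1 : Continuous fun t : unitInterval × X a b => rad e R (t.2 : ℂ) :=
          hcr0.comp (continuous_subtype_val.comp continuous_snd)
        have h2 : Continuous fun t : unitInterval × X a b => tws 1 p r r' (rad e R (t.2 : ℂ)) :=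
          (continuous_tws p r r').comp ((continuous_const (y := (1 : ℝ))).prodMk h1)
        have h3 : Continuous fun t : unitInterval × X a b => T (rad e R (t.2 : ℂ)) := hT.comp h1
        fun_prop)
      (by
        rintro ⟨t, z⟩
        rw [← hab]
        simp only
        set w := rad e R (z : ℂ) with hw
        have hwX : w ≠ p ∧ w ≠ q := hradX z
        rcases le_or_gt R' ‖w - e‖ with hwR | hwR
        · rw [hTt w (rad_mem hR _) hwR, ← tws_one]
          have : (1 - ((t : ℝ) : ℂ)) * tws 1 p r r' w + ((t : ℝ) : ℂ) * tws 1 p r r' w =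
              tws 1 p r r' w := by ring
          rw [this]
          exact htws 1 w hwX
        · have hwm : w ∈ closedBall e R' := by
            rw [mem_closedBall, dist_eq_norm]; exact hwR.le
          have htw : tws 1 p r r' w = w := by
            rcases lt_or_ge ‖w - p‖ r with h1 | h1
            · rw [tws_of_le 1 hrr h1.le]
              have : (2 * Real.pi * Complex.I * ((1 : ℝ) : ℂ)) = 2 * Real.pi * Complex.I := by
                push_cast; ring
              rw [this, Complex.exp_two_pi_mul_I]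
              ring
            · rcases le_or_gt ‖w - p‖ r' with h2 | h2
              · exact absurd (han w h1 h2).1 (not_lt.2 hwR.le)
              · exact tws_of_ge 1 hrr h2.le
          rw [htw]
          have hmem : (1 - ((t : ℝ) : ℂ)) * w + ((t : ℝ) : ℂ) * T w ∈ closedBall e R' := by
            have := (convex_closedBall e R') hwm (hTm w hwm)
              (a := 1 - (t : ℝ)) (b := (t : ℝ)) (by linarith [t.2.2]) t.2.1 (by ring)
            simpa [Complex.real_smul] using this
          rw [hab]
          exact ⟨fun hcon => ha (hcon ▸ hmem), fun hcon => hb (hcon ▸ hmem)⟩)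
      (by intro z; simp [hft])
      (by intro z; simp [hself z])
      (by
        intro t
        simp only [hbp, hradc]
        rw [mem_closedBall, dist_eq_norm, not_le] at hc
        rw [hTt (c : ℂ) (ball_subset_closedBall hpc) hc.le, ← tws_one, htwc]
        ring) γ

theorem goalD4 : GoalD4 := by
  intro a b c h e R R' r r' T hpos hR' hRR hT hcr hrr hrb han ha hb hc hTm hTt φ hφ hself
  refine ⟨dA h, Or.inl rfl, fun γ => ?_⟩
  refine main h a b (Or.inl ⟨rfl, rfl⟩) e R R' r r' T hpos hR' hRR hT ?_ hrr hrb han ha hb hc hTm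
    hTt (pathA h) ?_ φ hφ hself γ
  · rw [abs_of_pos (sub_pos.2 h.1)]
    exact hcr
  · intro t
    simp only [pathA, Path.coe_mk_mk, Complex.ofReal_sub]
    ring

theorem goalD5 : GoalD5 := by
  intro a b c h e R R' r r' T hpos hR' hRR hT hcr hrr hrb han ha hb hc hTm hTt φ hφ hself
  refine ⟨dB h, Or.inl rfl, fun γ => ?_⟩
  refine main h b a (Or.inr ⟨rfl, rfl⟩) e R R' r r' T hpos hR' hRR hT ?_ hrr hrb han ha hb hc hTm
    hTt (pathB h) ?_ φ hφ hself γ
  · rw [abs_of_neg (sub_neg.2 h.2)]
    linarith
  · intro t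
    simp only [pathB, Path.coe_mk_mk, Complex.ofReal_sub]
    ring

end Pool.Agent.Helper96.Big
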